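import Pool.Agent.Q19.HO.Stm

/-! HO-REAL: automorphisms of `Sym⁺` preserve the real matrices. -/

set_option autoImplicit false

namespace Pool.Agent.Q164.HO.REAL

open Matrix Pool.Agent.Q19.HO

variable {K : Type} [Field K] {n : ℕ}

lemma re_mul (a s : Matrix (Fin n) (Fin n) K) : re a * re s = re (a * s) := by
  funext i j
  show (re a * re s) i j = (a * s) i j • (1 : Oct K)
  rw [Matrix.mul_apply, Matrix.mul_apply, Finset.sum_smul]
  refine Finset.sum_congr rfl fun k _ => ?_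
  show (a i k • (1 : Oct K)) * (s k j • (1 : Oct K)) = (a i k * s k j) • (1 : Oct K)
  rw [Pool.Agent.Q19.HO.smul_mul', one_mul, smul_smul]

lemma re_add (a s : Matrix (Fin n) (Fin n) K) : re a + re s = re (a + s) := by
  funext i j
  exact (add_smul _ _ _).symm

lemma re_sub (a s : Matrix (Fin n) (Fin n) K) : re a - re s = re (a - s) := by
  funext i j
  exact (sub_smul _ _ _).symm

lemma re_mem {s : Matrix (Fin n) (Fin n) K} (hs : s ∈ SymK n K) : re s ∈ SymP n K := by
  intro i j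
  show star (s j i • (1 : Oct K)) = s i j • 1
  have h1 : s j i = s i j := congrFun (congrFun (show sᵀ = s from hs) i) j
  rw [star_smul', star_one, h1]

lemma mem_of_re {s : Matrix (Fin n) (Fin n) K} (hs : re s ∈ SymP n K) : s ∈ SymK n K := by
  show sᵀ = s
  ext i j
  rw [Matrix.transpose_apply]
  have h1 : star (s j i • (1 : Oct K)) = s i j • 1 := hs i j
  rw [star_smul', star_one] at h1
  have h2 := congrFun h1 0
  rw [smul_ap, smul_ap, one0, mul_one, mul_one] at h2
  exact h2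

lemma jp_mem (X Y : SymP n K) : jp (X : Mat n K) Y ∈ SymP n K := by
  intro i j
  have hX := X.2
  have hY := Y.2
  simp only [jp, Matrix.smul_apply, Matrix.add_apply, Matrix.mul_apply, star_smul', star_add,
    star_sum, star_mul]
  rw [add_comm]
  congr 2
  · exact Finset.sum_congr rfl fun k _ => by rw [hX, hY]
  · exact Finset.sum_congr rfl fun k _ => by rw [hX, hY]

lemma jp_sub_left (A B Y : Mat n K) : jp (A - B) Y = jp A Y - jp B Y := by
  unfold jp
  rw [Matrix.sub_mul, Matrix.mul_sub, ← smul_sub]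
  congr 1
  abel

lemma jp_sub_right (A B Y : Mat n K) : jp Y (A - B) = jp Y A - jp Y B := by
  unfold jp
  rw [Matrix.sub_mul, Matrix.mul_sub, ← smul_sub]
  congr 1
  abel

lemma der_sub {D D' : SymP n K →ₗ[K] SymP n K} (h : IsDerP D) (h' : IsDerP D') :
    IsDerP (D - D') := by
  intro X Y Z hZ
  have h1 := h X Y Z hZ
  have h2 := h' X Y Z hZ
  show jp ((D X : Mat n K) - (D' X : Mat n K)) Y + jp (X : Mat n K)
    ((D Y : Mat n K) - (D' Y : Mat n K)) = (D Z : Mat n K) - (D' Z : Mat n K)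
  rw [jp_sub_left, jp_sub_right, ← h1, ← h2]
  abel

/-- derivations preserve the real matrices -/
lemma der_real (h1 : S_DOP) (h2 : S_DER1) (h3 : S_DER3) (h : (2 : K) ≠ 0) (hn : 4 ≤ n)
    (D : SymP n K →ₗ[K] SymP n K) (hD : IsDerP D) (s : Matrix (Fin n) (Fin n) K) (X : SymP n K)
    (hX : (X : Mat n K) = re s) : ∃ s' ∈ SymK n K, (D X : Mat n K) = re s' := by
  obtain ⟨a, ha, hE⟩ := h2 K n h hn D hD
  obtain ⟨Da, hDa, hDaX⟩ := (h1 K n h).2 a ha
  have hk : ∀ (i : Fin n) (E : SymP n K), (E : Mat n K) = eu i → (D - Da) E = 0 := by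
    intro i E hEi
    apply Subtype.ext
    show (D E : Mat n K) - (Da E : Mat n K) = 0
    rw [hE i E hEi, hDaX, hEi, sub_self]
  obtain ⟨s', hs'⟩ := h3 K n h hn (D - Da) (der_sub hD hDa) hk s X hX
  have h4 : (D X : Mat n K) - (Da X : Mat n K) = re s' := hs'
  have h5 : (D X : Mat n K) = re (s' + (a * s - s * a)) := by
    rw [← re_add, ← re_sub, ← re_mul, ← re_mul, ← h4, hDaX, hX]
    abel
  refine ⟨_, mem_of_re ?_, h5⟩
  rw [← h5]
  exact (D X).2

/-- symmetric real matrices as Hermitian matrices -/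
def rs : SymK n K →ₗ[K] SymP n K where
  toFun s := ⟨re (s : Matrix (Fin n) (Fin n) K), re_mem s.2⟩
  map_add' s t := Subtype.ext (re_add _ _).symm
  map_smul' r s := by
    apply Subtype.ext
    funext i j
    exact mul_smul r ((s : Matrix (Fin n) (Fin n) K) i j) (1 : Oct K)

theorem t (h1 : S_DOP) (h2 : S_DER1) (h3 : S_DER3) (h4 : S_MOD) : S_REAL := by
  intro K _ n h hn f hf X hX
  set L : SymK n K →ₗ[K] Mat n K := (SymP n K).subtype ∘ₗ (f : SymP n K →ₗ[K] SymP n K) ∘ₗ rs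
    with hL
  have hfs : ∀ X Y Z : SymP n K, jp (X : Mat n K) Y = Z →
      jp (f.symm X : Mat n K) (f.symm Y) = f.symm Z := (AutP n K).inv_mem hf
  have hmem : ∀ Y : SymP n K, (∃ s ∈ SymK n K, (Y : Mat n K) = re s) →
      (f Y : Mat n K) ∈ LinearMap.range L := by
    rintro Y ⟨s, hs, hY⟩
    refine ⟨⟨s, hs⟩, ?_⟩
    show ((f (rs ⟨s, hs⟩) : SymP n K) : Mat n K) = f Y
    congr 2
    exact Subtype.ext hY.symm
  -- stability under derivations
  have hstab : ∀ D : SymP n K →ₗ[K] SymP n K, IsDerP D → ∀ s : SymK n K,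
      (D (f (rs s)) : Mat n K) ∈ LinearMap.range L := by
    intro D hD s
    set D' : SymP n K →ₗ[K] SymP n K :=
      (f.symm : SymP n K →ₗ[K] SymP n K) ∘ₗ D ∘ₗ (f : SymP n K →ₗ[K] SymP n K) with hD'
    have hder : IsDerP D' := by
      intro X Y Z hZ
      have e1 : jp (f X : Mat n K) (f Y) = f Z := hf X Y Z hZ
      have e2 := hD (f X) (f Y) (f Z) e1
      have e3 := hfs (D (f X)) (f Y) ⟨_, jp_mem (D (f X)) (f Y)⟩ rfl
      have e4 := hfs (f X) (D (f Y)) ⟨_, jp_mem (f X) (D (f Y))⟩ rfl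
      rw [f.symm_apply_apply] at e3 e4
      show jp (f.symm (D (f X)) : Mat n K) Y + jp (X : Mat n K) (f.symm (D (f Y))) =
        f.symm (D (f Z))
      rw [e3, e4]
      have e5 : (⟨_, jp_mem (D (f X)) (f Y)⟩ : SymP n K) + ⟨_, jp_mem (f X) (D (f Y))⟩ =
          D (f Z) := Subtype.ext e2
      rw [← e5, map_add]
      rfl
    obtain ⟨s', hs', hs'2⟩ := der_real h1 h2 h3 h hn D' hder s (rs s) rfl
    have e6 := hmem (D' (rs s)) ⟨s', hs', hs'2⟩
    have e7 : f (D' (rs s)) = D (f (rs s)) := f.apply_symm_apply _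
    rwa [e7] at e6
  have hM := h4 K n h hn (LinearMap.range L) (by
    rintro _ ⟨s, rfl⟩
    exact (f (rs s)).2) (LinearMap.finrank_range_le L) (by
    rintro d hd _ ⟨s, rfl⟩
    obtain ⟨D, hD, hDX⟩ := (h1 K n h).1 d hd
    have e1 := hstab D hD s
    rw [hDX] at e1
    exact e1) (by
    rintro a ha _ ⟨s, rfl⟩
    obtain ⟨D, hD, hDX⟩ := (h1 K n h).2 a ha
    have e1 := hstab D hD s
    rw [hDX] at e1
    exact e1)
  exact hM _ (hmem X hX)

end Pool.Agent.Q164.HO.REAL
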